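import Mathlib
import Pool.Agent.Lib.MP_ccbe9b_lc.Defs
import Pool.Agent.Lib.MP_ccbe9b_lc.Proofs
import Pool.Agent.Lib.MP_ccbe9b_lc.Uniform

set_option autoImplicit false

open Pool.Agent.Lib.MP_ccbe9b_lc

namespace Pool.Agent.Results.MP_ccbe9b_lc.Disjunctive

/-- For every finite `B` with `[B] = V` and every class `F` of frames containing the one-point
reflexive frame and the frame `(ℕ, >)` (in particular for all frames and for the transitive
frames): replacing each symbol by a word of one fixed length `L` is a reduction of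
`F`-SAT`({◇, □, ↓}, B)` to `F`-SAT`({◇, ↓}, B)`; for every block code of the symbols, if
`F`-SAT`({◇, ↓}, B)` is decided by circuits of constant depth and polynomial size, then so is
`F`-SAT`({◇, □, ↓}, B)`; and if no function in `B` has fictitious arguments, then there is a fixed
set `Γ` of symbols such that a formula is satisfiable iff its Polish notation contains a symbol
from `Γ`, and `F`-SAT`({◇, □, ↓}, B)` is decided by circuits of constant depth and polynomial size,
for every block code of the symbols. -/
theorem result (B : Finset BoolFun) (hB : CloneIsV (B : Set BoolFun)) :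
    (∃ (L : ℕ) (ρ : Sym B → Fin L → Sym B) (r : Form B → Form B), 0 < L ∧
      (∀ φ, BoxFree (r φ)) ∧
      (∀ φ, word (r φ) = (word φ).flatMap (fun s => List.ofFn (ρ s))) ∧
      ∀ F : (∀ W : Type, (W → W → Prop) → Prop), F Unit (fun _ _ => True) →
        F ℕ (fun a b => b < a) → ∀ φ, Satisfiable F φ ↔ Satisfiable F (r φ)) ∧
    (∀ F : (∀ W : Type, (W → W → Prop) → Prop), F Unit (fun _ _ => True) →
      F ℕ (fun a b => b < a) →
      ∀ (m : ℕ) (code : Sym B → Fin m → Bool), Function.Injective code →
        InAC0On code BoxFree (fun φ => Satisfiable F φ) →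
          InAC0 code (fun φ => Satisfiable F φ)) ∧
    (NoFictitious (B : Set BoolFun) →
      (∃ Γ : Set (Sym B),
        ∀ F : (∀ W : Type, (W → W → Prop) → Prop), F Unit (fun _ _ => True) →
          F ℕ (fun a b => b < a) →
          ∀ φ : Form B, Satisfiable F φ ↔ ∃ s ∈ word φ, s ∈ Γ) ∧
      ∀ F : (∀ W : Type, (W → W → Prop) → Prop), F Unit (fun _ _ => True) →
        F ℕ (fun a b => b < a) →
        ∀ (m : ℕ) (code : Sym B → Fin m → Bool), Function.Injective code →
          InAC0 code (fun φ => Satisfiable F φ)) := by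
  refine ⟨?_, fun F hF1 hF2 m code hcode h => ?_, fun hN => ⟨⟨{s | Live s}, fun F hF1 hF2 φ => ?_⟩, ?_⟩⟩
  · obtain ⟨L, ρ, r, hL, h1, h2, h3⟩ := exists_uniform hB
    refine ⟨L, ρ, r, hL, h1, h2, fun F hF1 hF2 φ => ?_⟩
    rw [satisfiable_iff hB F hF1 hF2, satisfiable_iff hB F hF1 hF2, h3]
  · refine inAC0_of_boxFree hB code hcode _ (fun φ ψ hφψ => ?_) h
    rw [satisfiable_iff hB F hF1 hF2, satisfiable_iff hB F hF1 hF2, hφψ]
  · rw [satisfiable_iff hB F hF1 hF2, good_iff_live hB hN]
    rfl
  · intro F hF1 hF2 m code hcode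
    refine inAC0_of_live code hcode _ (fun φ => ?_)
    rw [satisfiable_iff hB F hF1 hF2, good_iff_live hB hN]

end Pool.Agent.Results.MP_ccbe9b_lc.Disjunctive
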